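import Pool.Agent.L7h10.AB.Stm

/-!
# Project AB (helper10), part TRANS (helper56)
-/

set_option autoImplicit false

namespace Pool.Agent.L7h56.AB

open Pool.Agent.L7h10.AB Polynomial

section

variable {K : Type} [Field K] (p : ℕ) [CharP K p]

theorem cast_ne {i : ℕ} (h0 : 0 < i) (hi : i < p) : (i : K) ≠ 0 := by
  intro h
  rw [CharP.cast_eq_zero_iff K p] at h
  exact absurd (Nat.le_of_dvd h0 h) (not_le.2 hi)

theorem deriv_prim (f : K[X]) (h : f.natDegree + 1 < p) : derivative (prim f) = f := by
  conv_rhs => rw [f.as_sum_range_C_mul_X_pow]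
  unfold prim
  rw [derivative_sum]
  apply Finset.sum_congr rfl
  intro i hi
  have hi' : i < f.natDegree + 1 := Finset.mem_range.1 hi
  have h1 : ((i : K) + 1) ≠ 0 := by
    have := cast_ne (K := K) p (Nat.succ_pos i) (by omega : i.succ < p)
    push_cast at this
    exact this
  rw [derivative_C_mul, derivative_X_pow, Nat.add_sub_cancel]
  have h2 : C (f.coeff i / ((i : K) + 1)) * C ((((i + 1 : ℕ)) : K)) = C (f.coeff i) := by
    rw [← C_mul]
    congr 1
    push_cast
    field_simp
  rw [← mul_assoc, h2]

theorem natDegree_prim (f : K[X]) : (prim f).natDegree ≤ f.natDegree + 1 := by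
  unfold prim
  apply natDegree_sum_le_of_forall_le
  intro i hi
  have hi' : i < f.natDegree + 1 := Finset.mem_range.1 hi
  refine le_trans (natDegree_C_mul_X_pow_le _ _) ?_
  omega

theorem const_of_deriv (P : K[X]) (h : P.natDegree < p) (hd : derivative P = 0) :
    P = C (P.coeff 0) := by
  ext i
  rw [coeff_C]
  split_ifs with hi
  · rw [hi]
  · by_cases hip : P.natDegree < i
    · exact coeff_eq_zero_of_natDegree_lt hip
    · obtain ⟨j, rfl⟩ : ∃ j, i = j + 1 := ⟨i - 1, by omega⟩
      have h1 : (derivative P).coeff j = 0 := by rw [hd, coeff_zero]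
      rw [coeff_derivative] at h1
      have h2 : ((j : K) + 1) ≠ 0 := by
        have := cast_ne (K := K) p (Nat.succ_pos j) (by omega : j.succ < p)
        push_cast at this
        exact this
      exact (mul_eq_zero.1 h1).resolve_right h2

theorem prim_comp (f : K[X]) (h : f.natDegree + 1 < p) (s : K) :
    ∃ c : K, prim (f.comp (X + C s)) = (prim f).comp (X + C s) + C c := by
  have hnd : (f.comp (X + C s)).natDegree = f.natDegree := by
    rw [natDegree_comp, natDegree_X_add_C, mul_one]
  have h1 : derivative (prim (f.comp (X + C s)) - (prim f).comp (X + C s)) = 0 := by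
    rw [derivative_sub, deriv_prim p _ (by rw [hnd]; exact h), derivative_comp,
      deriv_prim p f h]
    simp
  have h2 : (prim (f.comp (X + C s)) - (prim f).comp (X + C s)).natDegree < p := by
    refine lt_of_le_of_lt (natDegree_sub_le _ _) ?_
    rw [max_lt_iff]
    constructor
    · have := natDegree_prim (f.comp (X + C s))
      rw [hnd] at this
      omega
    · rw [natDegree_comp, natDegree_X_add_C, mul_one]
      have := natDegree_prim f
      omega
  have h3 := const_of_deriv p _ h2 h1
  refine ⟨(prim (f.comp (X + C s)) - (prim f).comp (X + C s)).coeff 0, ?_⟩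
  rw [← h3]
  ring

theorem aeval_shift (f : K[X]) (s : K) (r : AlgebraicClosure K) :
    aeval r (f.comp (X + C s)) = aeval (r + algebraMap K (AlgebraicClosure K) s) f := by
  rw [aeval_comp]
  simp

theorem SB_comp (f : K[X]) (h : f.natDegree + 1 < p) (s : K) (hf : SB f) :
    SB (f.comp (X + C s)) := by
  obtain ⟨h1, h2⟩ := hf
  obtain ⟨c, hc⟩ := prim_comp p f h s
  constructor
  · intro r hr
    rw [aeval_shift] at hr
    have hd : derivative (f.comp (X + C s)) = (derivative f).comp (X + C s) := by
      rw [derivative_comp]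
      simp
    rw [hd, aeval_shift]
    exact h1 _ hr
  · intro r t hr ht hrt
    rw [aeval_shift] at hr ht
    rw [hc, map_add, map_add, aeval_shift, aeval_shift, aeval_C, aeval_C] at hrt
    have h3 := h2 _ _ hr ht (add_right_cancel hrt)
    exact add_right_cancel h3

theorem coeff_comp (g : K[X]) (m : ℕ) (hg : g.natDegree = m + 1) (s : K) :
    (g.comp (X + C s)).coeff m = g.coeff m + g.coeff (m + 1) * (s * (m + 1)) := by
  rw [comp, eval₂_eq_sum_range, finsetSum_coeff, hg, Finset.sum_range_succ,
    Finset.sum_range_succ]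
  have h0 : ∑ i ∈ Finset.range m, (C (g.coeff i) * (X + C s) ^ i).coeff m = 0 := by
    apply Finset.sum_eq_zero
    intro i hi
    rw [coeff_C_mul, coeff_X_add_C_pow, Nat.choose_eq_zero_of_lt (Finset.mem_range.1 hi)]
    simp
  rw [h0, coeff_C_mul, coeff_C_mul, coeff_X_add_C_pow, coeff_X_add_C_pow, Nat.choose_self,
    Nat.choose_succ_self_right, Nat.sub_self, Nat.add_sub_cancel_left]
  push_cast
  ring

theorem comp_comp (g : K[X]) (s t : K) (hst : s + t = 0) :
    (g.comp (X + C s)).comp (X + C t) = g := by
  rw [comp_assoc]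
  have h1 : (X + C s : K[X]).comp (X + C t) = X := by
    rw [add_comp, X_comp, C_comp, add_assoc, ← C_add, add_comm t s, hst, C_0, add_zero]
  rw [h1, comp_X]

theorem natDegree_shift (g : K[X]) (s : K) : (g.comp (X + C s)).natDegree = g.natDegree := by
  rw [natDegree_comp, natDegree_X_add_C, mul_one]

end

theorem s_TRANS : S_TRANS := by
  intro K _ _ p _ n hn hnp
  obtain ⟨m, rfl⟩ : ∃ m, n = m + 1 := ⟨n - 1, by omega⟩
  have hm0 : ((m : K) + 1) ≠ 0 := by
    have := cast_ne (K := K) p (Nat.succ_pos m) (by omega : m.succ < p)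
    push_cast at this
    exact this
  unfold N Ncen
  rw [← Nat.card_prod]
  refine Nat.card_congr ?_
  refine
    { toFun := fun g => (-(g.1.coeff m) / ((m : K) + 1),
        ⟨g.1.comp (X + C (-(g.1.coeff m) / ((m : K) + 1))), ?_, ?_, ?_, ?_⟩)
      invFun := fun x => ⟨x.2.1.comp (X + C (-x.1)), ?_, ?_, ?_⟩
      left_inv := ?_
      right_inv := ?_ }
  · exact g.2.1.comp_X_add_C _
  · rw [natDegree_shift]; exact g.2.2.1
  · rw [Nat.add_sub_cancel, coeff_comp g.1 m g.2.2.1]
    have h1 : g.1.coeff (m + 1) = 1 := by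
      have := g.2.1
      rw [Monic, leadingCoeff, g.2.2.1] at this
      exact this
    rw [h1]
    field_simp
    ring
  · exact SB_comp p g.1 (by rw [g.2.2.1]; exact hnp) _ g.2.2.2
  · exact x.2.2.1.comp_X_add_C _
  · rw [natDegree_shift]; exact x.2.2.2.1
  · exact SB_comp p x.2.1 (by rw [x.2.2.2.1]; exact hnp) _ x.2.2.2.2.2
  · intro g
    apply Subtype.ext
    exact comp_comp g.1 _ _ (by ring)
  · rintro ⟨t, f, hf1, hf2, hf3, hf4⟩
    have h1 : f.coeff (m + 1) = 1 := by
      have := hf1
      rw [Monic, leadingCoeff, hf2] at this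
      exact this
    have h2 : f.coeff m = 0 := by
      rw [Nat.add_sub_cancel] at hf3
      exact hf3
    have h3 : -((f.comp (X + C (-t))).coeff m) / ((m : K) + 1) = t := by
      rw [coeff_comp f m hf2, h1, h2]
      field_simp
      ring
    refine Prod.ext ?_ ?_
    · exact h3
    · apply Subtype.ext
      show (f.comp (X + C (-t))).comp (X + C (-((f.comp (X + C (-t))).coeff m) / ((m : K) + 1))) = f
      rw [h3]
      exact comp_comp f _ _ (by ring)

end Pool.Agent.L7h56.AB
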