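import Pool.Agent.L7h10.AB.Stm2

/-!
# Project AB (helper10), part CC, the half where the two quadratic polynomials are not coprime (helper56)
-/

set_option autoImplicit false

namespace Pool.Agent.L7h56.AB

open Pool.Agent.L7h10.AB Polynomial

section

variable {K : Type} [Field K]

theorem common_root {g g' : K[X]} (hg : g.Monic) (hg2 : g.natDegree = 2) (hg' : g'.Monic)
    (hg2' : g'.natDegree = 2) (hne : g ≠ g') (hnc : ¬ IsCoprime g g') :
    ∃ b : K, g.eval b = 0 ∧ g'.eval b = 0 := by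
  by_contra hcon
  push Not at hcon
  apply hnc
  apply isCoprime_of_irreducible_dvd (fun h => hg.ne_zero h.1)
  intro z hz hzg hzg'
  have hz0 : z ≠ 0 := hz.ne_zero
  have hzd : 0 < z.natDegree := hz.natDegree_pos
  obtain ⟨u, hu⟩ := hzg
  obtain ⟨u', hu'⟩ := hzg'
  have hu0 : u ≠ 0 := by rintro rfl; rw [mul_zero] at hu; exact hg.ne_zero hu
  have hu0' : u' ≠ 0 := by rintro rfl; rw [mul_zero] at hu'; exact hg'.ne_zero hu'
  have hd : z.natDegree + u.natDegree = 2 := by rw [← natDegree_mul hz0 hu0, ← hu, hg2]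
  have hd' : z.natDegree + u'.natDegree = 2 := by rw [← natDegree_mul hz0 hu0', ← hu', hg2']
  rcases (by omega : z.natDegree = 1 ∨ z.natDegree = 2) with h1 | h2
  · have hdeg : z.degree = 1 := by
      rw [degree_eq_natDegree hz0, h1]; rfl
    obtain ⟨b, hb⟩ := exists_root_of_degree_eq_one hdeg
    have hb' : z.eval b = 0 := hb
    refine hcon b ?_ ?_
    · rw [hu, eval_mul, hb', zero_mul]
    · rw [hu', eval_mul, hb', zero_mul]
  · have e1 : u = C (u.coeff 0) := eq_C_of_natDegree_eq_zero (by omega)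
    have e2 : u' = C (u'.coeff 0) := eq_C_of_natDegree_eq_zero (by omega)
    have l1 : z.leadingCoeff * u.coeff 0 = 1 := by
      have := hg.leadingCoeff
      rw [hu, leadingCoeff_mul, e1, leadingCoeff_C] at this
      simpa using this
    have l2 : z.leadingCoeff * u'.coeff 0 = 1 := by
      have := hg'.leadingCoeff
      rw [hu', leadingCoeff_mul, e2, leadingCoeff_C] at this
      simpa using this
    have hl0 : z.leadingCoeff ≠ 0 := leadingCoeff_ne_zero.2 hz0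
    have e3 : u.coeff 0 = u'.coeff 0 := mul_left_cancel₀ hl0 (by rw [l1, l2])
    apply hne
    rw [hu, hu', e1, e2, e3]

theorem lin_factor {g : K[X]} {b : K} (hg : g.Monic) (hg2 : g.natDegree = 2) (h : g.eval b = 0) :
    ∃ e : K, g = (X - C b) * (X - C e) := by
  obtain ⟨l, hl⟩ := dvd_iff_isRoot.2 h
  have hlm : l.Monic := (monic_X_sub_C b).of_mul_monic_left (by rw [← hl]; exact hg)
  have hld : l.natDegree = 1 := by
    rw [hl, (monic_X_sub_C b).natDegree_mul hlm, natDegree_X_sub_C] at hg2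
    omega
  refine ⟨-l.coeff 0, ?_⟩
  rw [hl, C_neg, sub_neg_eq_add, ← hlm.eq_X_add_C hld]

theorem cc_exists (p : ℕ) [CharP K p] (n : ℕ) (hn : 7 ≤ n) (hnp : n + 1 < p) (g g' h h' : K[X])
    (hg : g.Monic) (hg2 : g.natDegree = 2) (hg' : g'.Monic) (hg2' : g'.natDegree = 2)
    (hh : h.Monic) (hhd : h.natDegree = n - 3) (hh' : h'.Monic) (hhd' : h'.natDegree = n - 3)
    (hne : ¬ (g = g' ∧ h = h')) (hder : derivative (g ^ 2 * h) = derivative (g' ^ 2 * h'))
    (hnc : ¬ IsCoprime g g') :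
    ∃ (b e e' : K) (k : K[X]), k.Monic ∧ k.natDegree = n - 5 ∧ g = (X - C b) * (X - C e) ∧
      g' = (X - C b) * (X - C e') ∧ h = (X - C e') ^ 2 * k ∧ h' = (X - C e) ^ 2 * k := by
  have hdeg : (g ^ 2 * h).natDegree = n + 1 := by
    rw [(hg.pow 2).natDegree_mul hh, hg.natDegree_pow, hg2, hhd]; omega
  have hdeg' : (g' ^ 2 * h').natDegree = n + 1 := by
    rw [(hg'.pow 2).natDegree_mul hh', hg'.natDegree_pow, hg2', hhd']; omega
  have hP : g ^ 2 * h - g' ^ 2 * h' = C ((g ^ 2 * h - g' ^ 2 * h').coeff 0) := by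
    apply const_of_deriv p
    · refine lt_of_le_of_lt (natDegree_sub_le _ _) ?_
      rw [hdeg, hdeg', max_self]
      exact hnp
    · rw [derivative_sub, hder, sub_self]
  set c := (g ^ 2 * h - g' ^ 2 * h').coeff 0 with hc
  have hgg : g ≠ g' := by
    intro hgg
    apply hne
    refine ⟨hgg, ?_⟩
    by_contra hhne
    have h1 : g ^ 2 * (h - h') = C c := by
      rw [← hP, ← hgg]; ring
    have h2 : h - h' ≠ 0 := sub_ne_zero.2 hhne
    have h3 := congrArg natDegree h1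
    rw [natDegree_C, natDegree_mul (pow_ne_zero 2 hg.ne_zero) h2, natDegree_pow, hg2] at h3
    omega
  obtain ⟨b, hb, hb'⟩ := common_root hg hg2 hg' hg2' hgg hnc
  obtain ⟨e, he⟩ := lin_factor hg hg2 hb
  obtain ⟨e', he'⟩ := lin_factor hg' hg2' hb'
  have hc0 : c = 0 := by
    have h1 := congrArg (eval b) hP
    rw [eval_sub, eval_mul, eval_mul, eval_pow, eval_pow, hb, hb', eval_C] at h1
    rw [← h1]; ring
  have heq : g ^ 2 * h = g' ^ 2 * h' := by
    rw [hc0, C_0] at hP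
    exact sub_eq_zero.1 hP
  have hee : e ≠ e' := by
    rintro rfl
    exact hgg (by rw [he, he'])
  have hX : (X - C b : K[X]) ^ 2 ≠ 0 := pow_ne_zero 2 (X_sub_C_ne_zero b)
  have h2 : (X - C e) ^ 2 * h = (X - C e') ^ 2 * h' := by
    apply mul_left_cancel₀ hX
    rw [he, he'] at heq
    linear_combination heq
  have hcop : IsCoprime ((X - C e') ^ 2 : K[X]) ((X - C e) ^ 2) :=
    (isCoprime_X_sub_C_of_isUnit_sub (isUnit_iff_ne_zero.2 (sub_ne_zero.2 hee.symm))).pow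
  obtain ⟨k, hk⟩ : (X - C e' : K[X]) ^ 2 ∣ h :=
    hcop.dvd_of_dvd_mul_left ⟨h', by rw [h2]⟩
  have hm : ((X - C e' : K[X]) ^ 2).Monic := (monic_X_sub_C e').pow 2
  have hkm : k.Monic := hm.of_mul_monic_left (by rw [← hk]; exact hh)
  refine ⟨b, e, e', k, hkm, ?_, he, he', hk, ?_⟩
  · rw [hk, hm.natDegree_mul hkm, (monic_X_sub_C e').natDegree_pow, natDegree_X_sub_C] at hhd
    omega
  · apply mul_left_cancel₀ (pow_ne_zero 2 (X_sub_C_ne_zero e') : (X - C e' : K[X]) ^ 2 ≠ 0)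
    rw [← h2, hk]
    ring

end

/-- The pairs with quadratic polynomials which are not coprime. -/
theorem cc_non (hCARD : S_CARD) (K : Type) [Field K] [Finite K] (p : ℕ) [CharP K p] (n : ℕ)
    (hn : 7 ≤ n) (hnp : n + 1 < p) :
    Nat.card {x : (Mon K 2 × Mon K (n - 3)) × (Mon K 2 × Mon K (n - 3)) // x.1 ≠ x.2 ∧
      derivative (x.1.1.1 ^ 2 * x.1.2.1) = derivative (x.2.1.1 ^ 2 * x.2.2.1) ∧
      ¬ IsCoprime x.1.1.1 x.2.1.1} ≤ Nat.card K ^ (n - 2) := by
  have hex : ∀ x : {x : (Mon K 2 × Mon K (n - 3)) × (Mon K 2 × Mon K (n - 3)) // x.1 ≠ x.2 ∧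
      derivative (x.1.1.1 ^ 2 * x.1.2.1) = derivative (x.2.1.1 ^ 2 * x.2.2.1) ∧
      ¬ IsCoprime x.1.1.1 x.2.1.1}, ∃ y : K × K × K × Mon K (n - 5),
      x.1.1.1.1 = (X - C y.1) * (X - C y.2.1) ∧ x.1.2.1.1 = (X - C y.1) * (X - C y.2.2.1) ∧
      x.1.1.2.1 = (X - C y.2.2.1) ^ 2 * y.2.2.2.1 ∧ x.1.2.2.1 = (X - C y.2.1) ^ 2 * y.2.2.2.1 := by
    rintro ⟨⟨⟨g, h⟩, ⟨g', h'⟩⟩, hne, hder, hnc⟩
    obtain ⟨b, e, e', k, hk1, hk2, h1, h2, h3, h4⟩ := cc_exists p n hn hnp g.1 g'.1 h.1 h'.1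
      g.2.1 g.2.2 g'.2.1 g'.2.2 h.2.1 h.2.2 h'.2.1 h'.2.2 (by
        rintro ⟨e1, e2⟩
        apply hne
        exact Prod.ext (Subtype.ext e1) (Subtype.ext e2)) hder hnc
    exact ⟨(b, e, e', ⟨k, hk1, hk2⟩), h1, h2, h3, h4⟩
  choose ψ h1 h2 h3 h4 using hex
  have hinj : Function.Injective ψ := by
    intro x y hxy
    apply Subtype.ext
    refine Prod.ext (Prod.ext ?_ ?_) (Prod.ext ?_ ?_)
    · apply Subtype.ext; rw [h1, h1, hxy]
    · apply Subtype.ext; rw [h3, h3, hxy]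
    · apply Subtype.ext; rw [h2, h2, hxy]
    · apply Subtype.ext; rw [h4, h4, hxy]
  obtain ⟨hfin, hcard⟩ := hCARD K (n - 5)
  have hle := Nat.card_le_card_of_injective ψ hinj
  refine le_trans hle ?_
  rw [Nat.card_prod, Nat.card_prod, Nat.card_prod, hcard, show n - 2 = (n - 5) + 3 by omega, pow_add]
  apply le_of_eq
  ring

end Pool.Agent.L7h56.AB
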